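import Pool.Agent.helper21.OD.SpecB

/-!
# od:CFD, coefficients of the polynomials invariant under `diag(ε, 1)`

Helper file for MP_2e0e07_nt (project od).
-/

namespace Pool.Agent.OD

open MvPolynomial Matrix

theorem CFD_act (t : ℤ) {κ : Type} [Field κ] (π : Oz t →+* κ) (j a b : ℕ) :
    act π (dE t) (mon j a b : Pol κ) =
      C (π ⟨0, 1⟩ ^ a * π (star ⟨0, 1⟩) ^ b) * mon j a b := by
  have h0 : act π (dE t) (X 0 : Pol κ) = C (π ⟨0, 1⟩) * X 0 := by
    unfold act
    rw [aeval_X]
    simp [dE]
  have h1 : act π (dE t) (X 1 : Pol κ) = X 1 := by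
    unfold act
    rw [aeval_X]
    simp [dE]
  have h2 : act π (dE t) (X 2 : Pol κ) = C (π (star ⟨0, 1⟩)) * X 2 := by
    unfold act
    rw [aeval_X]
    simp [dE]
  have h3 : act π (dE t) (X 3 : Pol κ) = X 3 := by
    unfold act
    rw [aeval_X]
    simp [dE]
  unfold mon
  rw [map_mul, map_mul, map_mul, map_pow, map_pow, map_pow, map_pow, h0, h1, h2, h3, mul_pow, mul_pow,
    C_mul, C_pow, C_pow]
  ring

theorem CFD_order4 {κ : Type} [Field κ] (e : κ) (he : e ^ 2 = -1) (h2 : (2 : κ) ≠ 0) (n : ℕ)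
    (hn : e ^ n = 1) : 4 ∣ n := by
  have h4 : orderOf e = 4 := by
    apply orderOf_eq_of_pow_and_pow_div_prime (by norm_num)
    · calc e ^ 4 = (e ^ 2) ^ 2 := by ring
        _ = 1 := by rw [he]; norm_num
    · intro p hp hd
      have hp2 : p = 2 := by
        have h1 : p ∣ 2 ^ 2 := by norm_num; exact hd
        exact (Nat.prime_dvd_prime_iff_eq hp Nat.prime_two).1 (hp.dvd_of_dvd_pow h1)
      subst hp2
      intro hc
      have hc' : e ^ 2 = 1 := hc
      rw [he] at hc'
      apply h2
      linear_combination -hc'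
  rw [← h4]
  exact orderOf_dvd_of_pow_eq_one hn

theorem CFD_order6 {κ : Type} [Field κ] (e : κ) (he : e ^ 2 = e - 1) (h6 : (6 : κ) ≠ 0) (n : ℕ)
    (hn : e ^ n = 1) : 6 ∣ n := by
  have h3 : e ^ 3 = -1 := by linear_combination (e + 1) * he
  have h2' : (2 : κ) ≠ 0 := by
    intro hc
    apply h6
    linear_combination 3 * hc
  have h3' : (3 : κ) ≠ 0 := by
    intro hc
    apply h6
    linear_combination 2 * hc
  have h4 : orderOf e = 6 := by
    apply orderOf_eq_of_pow_and_pow_div_prime (by norm_num)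
    · calc e ^ 6 = (e ^ 3) ^ 2 := by ring
        _ = 1 := by rw [h3]; norm_num
    · intro p hp hd
      have hp6 : p = 2 ∨ p = 3 := by
        have h1 : p ∣ 2 * 3 := by norm_num; exact hd
        rcases (Nat.Prime.dvd_mul hp).1 h1 with h | h
        · exact Or.inl ((Nat.prime_dvd_prime_iff_eq hp Nat.prime_two).1 h)
        · exact Or.inr ((Nat.prime_dvd_prime_iff_eq hp Nat.prime_three).1 h)
      rcases hp6 with rfl | rfl
      · intro hc
        have hc' : e ^ 3 = 1 := hc
        rw [h3] at hc'
        apply h2'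
        linear_combination -hc'
      · intro hc
        have hc' : e ^ 2 = 1 := hc
        have h5 : e = 2 := by linear_combination hc' - he
        apply h3'
        rw [h5] at hc'
        linear_combination hc'
  rw [← h4]
  exact orderOf_dvd_of_pow_eq_one hn

theorem CFD (hEXQ : EXQ_stmt) : CFD_stmt := by
  intro t κ _ π j P hP hact hch a b ha hb hdvd
  obtain ⟨h1, h2⟩ := hEXQ (A := κ) j
  set e : κ := π ⟨0, 1⟩ with he
  set e' : κ := π (star ⟨0, 1⟩) with he'
  have hee : e * e' = 1 := by
    rw [he, he', ← map_mul]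
    have h : (⟨0, 1⟩ : Oz t) * star ⟨0, 1⟩ = 1 := by
      ext <;> simp <;> rfl
    rw [h, map_one]
  have hsq : e ^ 2 = (t : κ) * e - 1 := by
    have h : (⟨0, 1⟩ : Oz t) ^ 2 = (t : Oz t) * ⟨0, 1⟩ - 1 := by
      rw [sq]
      ext
      · simp
        rfl
      · simp
        have h0 : (QuadraticAlgebra.im (1 : Oz t)) = 0 := rfl
        rw [h0, sub_zero]
    rw [he, ← map_pow, h, map_sub, map_mul, map_intCast, map_one]
  have e1 : act π (dE t) P = ∑ a ∈ Finset.range (j + 1), ∑ b ∈ Finset.range (j + 1),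
      C (cf P j a b * (e ^ a * e' ^ b)) * mon j a b := by
    conv_lhs => rw [h1 P hP]
    rw [map_sum]
    refine Finset.sum_congr rfl fun a _ => ?_
    rw [map_sum]
    refine Finset.sum_congr rfl fun b _ => ?_
    have h3 : act π (dE t) (C (cf P j a b)) = C (cf P j a b) := (act π (dE t)).commutes _
    rw [map_mul, h3, CFD_act, ← mul_assoc, ← C_mul]
  have e2 : cf P j a b = cf P j a b * (e ^ a * e' ^ b) := by
    have e3 : cf (act π (dE t) P) j a b = cf P j a b * (e ^ a * e' ^ b) := by
      rw [e1]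
      show coeff _ (∑ a ∈ Finset.range (j + 1), ∑ b ∈ Finset.range (j + 1),
        C (cf P j a b * (e ^ a * e' ^ b)) * mon j a b) = _
      rw [coeff_sum, Finset.sum_eq_single a]
      · rw [coeff_sum, Finset.sum_eq_single b]
        · rw [coeff_C_mul]
          have h3 := h2 a b a b ha hb ha hb
          rw [if_pos ⟨rfl, rfl⟩] at h3
          have h4 : coeff (Finsupp.equivFunOnFinite.symm ![a, j - a, b, j - b]) (mon j a b : Pol κ) = 1 := h3
          rw [h4, mul_one]
        · intro b' hb' hne
          rw [coeff_C_mul]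
          have h3 := h2 a b' a b ha (by rw [Finset.mem_range] at hb'; omega) ha hb
          rw [if_neg (fun h => hne h.2)] at h3
          have h4 : coeff (Finsupp.equivFunOnFinite.symm ![a, j - a, b, j - b]) (mon j a b' : Pol κ) = 0 := h3
          rw [h4, mul_zero]
        · intro h
          exact absurd (Finset.mem_range.2 (by omega)) h
      · intro a' ha' hne
        rw [coeff_sum]
        refine Finset.sum_eq_zero fun b' hb' => ?_
        rw [coeff_C_mul]
        have h3 := h2 a' b' a b (by rw [Finset.mem_range] at ha'; omega)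
          (by rw [Finset.mem_range] at hb'; omega) ha hb
        rw [if_neg (fun h => hne h.1)] at h3
        have h4 : coeff (Finsupp.equivFunOnFinite.symm ![a, j - a, b, j - b]) (mon j a' b' : Pol κ) = 0 := h3
        rw [h4, mul_zero]
      · intro h
        exact absurd (Finset.mem_range.2 (by omega)) h
    rw [hact] at e3
    exact e3
  by_contra hne
  have e4 : e ^ a * e' ^ b = 1 := by
    have h5 : cf P j a b * (e ^ a * e' ^ b) = cf P j a b * 1 := by rw [mul_one]; exact e2.symm
    exact mul_left_cancel₀ hne h5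
  -- the power of `e` which is one
  have e5 : e ^ (a - b) * e' ^ (b - a) = 1 := by
    rcases le_total b a with h | h
    · obtain ⟨c, rfl⟩ := Nat.exists_eq_add_of_le h
      rw [Nat.add_sub_cancel_left, Nat.sub_eq_zero_of_le h, pow_zero, mul_one]
      rw [pow_add, mul_comm (e ^ b), mul_assoc, ← mul_pow, hee, one_pow, mul_one] at e4
      exact e4
    · obtain ⟨c, rfl⟩ := Nat.exists_eq_add_of_le h
      rw [Nat.add_sub_cancel_left, Nat.sub_eq_zero_of_le h, pow_zero, one_mul]
      rw [pow_add, ← mul_assoc, ← mul_pow, hee, one_pow, one_mul] at e4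
      exact e4
  have e6 : ∃ n : ℕ, e ^ n = 1 ∧ ((n : ℤ) = a - b ∨ (n : ℤ) = b - a) := by
    rcases le_total b a with h | h
    · refine ⟨a - b, ?_, Or.inl (by omega)⟩
      rw [Nat.sub_eq_zero_of_le h, pow_zero, mul_one] at e5
      exact e5
    · refine ⟨b - a, ?_, Or.inr (by omega)⟩
      rw [Nat.sub_eq_zero_of_le h, pow_zero, one_mul] at e5
      have h6 : e ^ (b - a) * e' ^ (b - a) = 1 := by rw [← mul_pow, hee, one_pow]
      rw [e5, mul_one] at h6
      exact h6
  obtain ⟨n, hn, hn'⟩ := e6
  rcases hch with ⟨rfl, hc⟩ | ⟨rfl, hc⟩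
  · have h7 : e ^ 2 = -1 := by
      rw [hsq]
      push_cast
      ring
    obtain ⟨c, hc4⟩ := CFD_order4 e h7 hc n hn
    apply hdvd
    rw [if_pos rfl]
    rcases hn' with h | h
    · exact ⟨c, by omega⟩
    · exact ⟨-c, by omega⟩
  · have h7 : e ^ 2 = e - 1 := by
      rw [hsq]
      push_cast
      ring
    obtain ⟨c, hc6⟩ := CFD_order6 e h7 hc n hn
    apply hdvd
    rw [if_neg (by norm_num)]
    rcases hn' with h | h
    · exact ⟨c, by omega⟩
    · exact ⟨-c, by omega⟩

end Pool.Agent.OD
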