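import Pool.Agent.helper21.OD.SpecC

/-!
# od:CLS, existence of the class of a character

Helper file for MP_2e0e07_nt (project od).
-/

namespace Pool.Agent.OD

section

variable {t : ℤ} {κ : Type} [Field κ]

/-- the nonzero values of `π` -/
def CLS_H (π : Oz t →+* κ) (hinv : ∀ x : Oz t, π x ≠ 0 → ∃ x' : Oz t, π x * π x' = 1) : Subgroup κˣ where
  carrier := {u | ∃ x : Oz t, π x = (u : κ)}
  one_mem' := ⟨1, by rw [map_one, Units.val_one]⟩
  mul_mem' := by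
    rintro a b ⟨x, hx⟩ ⟨y, hy⟩
    exact ⟨x * y, by rw [map_mul, hx, hy, Units.val_mul]⟩
  inv_mem' := by
    rintro a ⟨x, hx⟩
    obtain ⟨x', hx'⟩ := hinv x (by rw [hx]; exact a.ne_zero)
    refine ⟨x', ?_⟩
    rw [Units.val_inv_eq_inv_val, ← hx]
    exact eq_inv_of_mul_eq_one_right hx'

theorem CLS_sum (z : Oz t) : ∃ s : ℤ, z + star z = (s : Oz t) := by
  obtain ⟨s, hs⟩ : ∃ s : ℤ, s = 2 * z.re + t * z.im := ⟨_, rfl⟩
  refine ⟨s, ?_⟩
  ext
  · simp
    rw [hs]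
    ring
  · simp

theorem CLS_mul (z : Oz t) : ∃ n : ℤ, z * star z = (n : Oz t) := by
  obtain ⟨n, hn⟩ : ∃ n : ℤ, n = z.re ^ 2 + t * z.re * z.im + z.im ^ 2 := ⟨_, rfl⟩
  refine ⟨n, ?_⟩
  ext
  · simp
    rw [hn]
    ring
  · simp
    ring

theorem CLS_starnat (n : ℕ) : star ((n : ℕ) : Oz t) = ((n : ℕ) : Oz t) := star_natCast n

end

theorem CLS (hREP : REP_stmt) (hNRL : NRL_stmt) : CLS_stmt := by
  classical
  intro t _ ℓ hℓ hprime κ _ π hπ r χ hχ hstar k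
  have hCh : CharP κ ℓ := (CharP.charP_iff_prime_eq_zero hℓ).2 hπ
  have hfact : Fact ℓ.Prime := ⟨hℓ⟩
  obtain ⟨hrep1, hrep2, hrep3⟩ := hREP t ℓ hℓ
  have hdvd0 : ∀ z : Oz t, ((ℓ : ℕ) : Oz t) ∣ z → π z = 0 := by
    rintro z ⟨w, rfl⟩
    rw [map_mul, map_natCast, hπ, zero_mul]
  have hne0 : ∀ z : Oz t, ¬ ((ℓ : ℕ) : Oz t) ∣ z → π z ≠ 0 := fun z hz =>
    (hNRL t ℓ hℓ hprime π hπ z hz).2
  have hdvd : ∀ z w : Oz t, π z = π w → ((ℓ : ℕ) : Oz t) ∣ z - w := by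
    intro z w h
    by_contra hc
    exact hne0 _ hc (by rw [map_sub, h, sub_self])
  have hinv : ∀ x : Oz t, π x ≠ 0 → ∃ x' : Oz t, π x * π x' = 1 := by
    intro x hx
    obtain ⟨x', hx'⟩ := hrep3 hprime x fun h => hx (hdvd0 x h)
    refine ⟨x', ?_⟩
    have h := hdvd0 _ hx'
    rw [map_sub, map_mul, map_one, sub_eq_zero] at h
    exact h
  -- (1)
  have h1 : ∀ x y : Oz t, ((ℓ : ℕ) : Oz t) ∣ x - y → χ x = χ y := by
    intro x y h
    have h2 := dvd_sub_pow_of_dvd_sub h r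
    have h3 : χ (x ^ ℓ ^ r) = χ (y ^ ℓ ^ r) := by
      apply hχ
      exact (pow_dvd_pow _ (Nat.le_succ r)).trans h2
    rw [map_pow, map_pow] at h3
    have h4 : (χ x - χ y) ^ ℓ ^ r = 0 := by
      rw [sub_pow_char_pow, h3, sub_self]
    exact sub_eq_zero.1 (pow_eq_zero_iff (pow_ne_zero _ hℓ.ne_zero) |>.1 h4)
  -- the group
  set H := CLS_H π hinv with hH
  have hz0 : rep t ((⟨0, hℓ.pos⟩, ⟨0, hℓ.pos⟩) : Fin ℓ × Fin ℓ) = 0 := by
    unfold rep
    ext <;> simp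
  have hnrep : ∀ x : {x : Fin ℓ × Fin ℓ // x ≠ (⟨0, hℓ.pos⟩, ⟨0, hℓ.pos⟩)}, π (rep t x.1) ≠ 0 := by
    intro x
    apply hne0
    intro h
    apply x.2
    apply hrep2
    rw [hz0, sub_zero]
    exact h
  have hcard : Nat.card H = ℓ ^ 2 - 1 := by
    set F : {x : Fin ℓ × Fin ℓ // x ≠ (⟨0, hℓ.pos⟩, ⟨0, hℓ.pos⟩)} → H := fun x =>
      ⟨Units.mk0 (π (rep t x.1)) (hnrep x), ⟨rep t x.1, rfl⟩⟩ with hF
    have hbij : Function.Bijective F := by
      constructor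
      · intro x y h
        have h2 : π (rep t x.1) = π (rep t y.1) :=
          congrArg (fun u : H => ((u : κˣ) : κ)) h
        exact Subtype.ext (hrep2 _ _ (hdvd _ _ h2))
      · rintro ⟨u, z, hz⟩
        obtain ⟨x, hx⟩ := hrep1 z
        have h2 : π (rep t x) = (u : κ) := by
          have h3 := hdvd0 _ hx
          rw [map_sub, sub_eq_zero] at h3
          rw [← h3, hz]
        have hx0 : x ≠ (⟨0, hℓ.pos⟩, ⟨0, hℓ.pos⟩) := by
          rintro rfl
          rw [hz0, map_zero] at h2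
          exact u.ne_zero h2.symm
        refine ⟨⟨x, hx0⟩, ?_⟩
        apply Subtype.ext
        apply Units.ext
        exact h2
    rw [← Nat.card_eq_of_bijective F hbij, Nat.card_eq_fintype_card, Fintype.card_subtype,
      Finset.filter_ne', Finset.card_erase_of_mem (Finset.mem_univ _), Finset.card_univ,
      Fintype.card_prod, Fintype.card_fin, sq]
  have hℓ2 : 2 ≤ ℓ := hℓ.two_le
  have hprod : ℓ ^ 2 - 1 = (ℓ + 1) * (ℓ - 1) := by
    obtain ⟨m, rfl⟩ := Nat.exists_eq_add_of_le hℓ2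
    have h2 : (2 + m) ^ 2 = (2 + m + 1) * (m + 1) + 1 := by ring
    have h3 : 2 + m - 1 = m + 1 := by omega
    rw [h3, h2, Nat.add_sub_cancel]
  have hpos : 0 < ℓ ^ 2 - 1 := by
    rw [hprod]
    exact Nat.mul_pos (by omega) (by omega)
  have hfin : Finite H := Nat.finite_of_card_ne_zero (by rw [hcard]; exact hpos.ne')
  obtain ⟨γ, hγ⟩ := IsCyclic.exists_monoid_generator (α := H)
  set c : κ := ((γ : κˣ) : κ) with hc
  obtain ⟨g, hg⟩ : ∃ g : Oz t, π g = c := γ.2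
  have hord : orderOf c = ℓ ^ 2 - 1 := by
    rw [hc, orderOf_units, Subgroup.orderOf_coe, ← hcard]
    refine orderOf_eq_card_of_forall_mem_zpowers fun x => ?_
    obtain ⟨m, hm⟩ := hγ x
    exact ⟨m, by rw [← hm]; exact zpow_natCast γ m⟩
  have hpow : ∀ x : Oz t, ¬ ((ℓ : ℕ) : Oz t) ∣ x → ∃ a : ℕ, π x = c ^ a := by
    intro x hx
    obtain ⟨m, hm⟩ := hγ ⟨Units.mk0 (π x) (hne0 x hx), ⟨x, rfl⟩⟩
    refine ⟨m, ?_⟩
    have h2 := congrArg (fun u : H => ((u : κˣ) : κ)) hm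
    have h3 : ((((γ ^ m : H) : κˣ)) : κ) = π x := h2
    rw [← h3, hc]
    push_cast
    rfl
  have hc0 : c ≠ 0 := (γ : κˣ).ne_zero
  -- (3)
  have h3 : c ^ ℓ = π (star g) := by
    obtain ⟨s, hs⟩ := CLS_sum g
    obtain ⟨n, hn⟩ := CLS_mul g
    have e1 : c + π (star g) = (s : κ) := by rw [← hg, ← map_add, hs, map_intCast]
    have e2 : c * π (star g) = (n : κ) := by rw [← hg, ← map_mul, hn, map_intCast]
    have e3 : c ^ 2 - s * c + n = 0 := by rw [← e1, ← e2]; ring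
    have e4 : (c ^ ℓ) ^ 2 - s * c ^ ℓ + n = 0 := by
      have h := congrArg (frobenius κ ℓ) e3
      rw [map_add, map_sub, map_mul, map_pow, map_intCast, map_intCast, map_zero, frobenius_def] at h
      exact h
    have e5 : (c ^ ℓ - c) * (c ^ ℓ - π (star g)) = 0 := by
      rw [← e1, ← e2] at e4
      linear_combination e4
    rcases mul_eq_zero.1 e5 with h | h
    · exfalso
      have h6 : c ^ (ℓ - 1) = 1 := by
        have h7 : c ^ (ℓ - 1) * c = 1 * c := by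
          rw [← pow_succ, one_mul]
          have : ℓ - 1 + 1 = ℓ := by omega
          rw [this]
          exact sub_eq_zero.1 h
        exact mul_right_cancel₀ hc0 h7
      have h8 := orderOf_dvd_of_pow_eq_one h6
      rw [hord, hprod] at h8
      have h9 := Nat.le_of_dvd (by omega) h8
      nlinarith [Nat.sub_add_cancel (show 1 ≤ ℓ by omega)]
    · exact sub_eq_zero.1 h
  -- (4)
  have hgg : χ g ≠ 0 := by
    obtain ⟨g', hg'⟩ := hinv g (by rw [hg]; exact hc0)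
    intro h0
    have h4 : χ (g * g') = χ 1 := by
      apply h1
      apply hdvd
      rw [map_mul, map_one, hg']
    rw [map_mul, h0, zero_mul, map_one] at h4
    exact zero_ne_one h4
  have h4 : χ g ^ (ℓ - 1) = 1 := by
    have h5 : χ g ^ ℓ = χ g := by
      rw [← map_pow, ← hstar g]
      apply h1
      apply hdvd
      rw [map_pow, hg, h3]
    have h7 : χ g ^ (ℓ - 1) * χ g = 1 * χ g := by
      rw [← pow_succ, one_mul]
      have : ℓ - 1 + 1 = ℓ := by omega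
      rw [this]
      exact h5
    exact mul_right_cancel₀ hgg h7
  have hprim : IsPrimitiveRoot (c ^ (ℓ + 1)) (ℓ - 1) := by
    have h5 : IsPrimitiveRoot c (ℓ ^ 2 - 1) := by
      rw [← hord]
      exact IsPrimitiveRoot.orderOf c
    exact h5.pow hpos hprod
  have hnz : NeZero (ℓ - 1) := ⟨by omega⟩
  obtain ⟨i, _, hi⟩ := hprim.eq_pow_of_pow_eq_one h4
  -- (5)
  have h5 : ∀ x, ¬ ((ℓ : ℕ) : Oz t) ∣ x → χ x = π (x * star x) ^ i := by
    intro x hx
    obtain ⟨a, ha⟩ := hpow x hx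
    have h6 : ((ℓ : ℕ) : Oz t) ∣ x - g ^ a := by
      apply hdvd
      rw [ha, map_pow, hg]
    have h7 : ((ℓ : ℕ) : Oz t) ∣ star x - (star g) ^ a := by
      obtain ⟨w, hw⟩ := h6
      refine ⟨star w, ?_⟩
      have h8 := congrArg star hw
      rw [star_sub, star_pow, star_mul, CLS_starnat, mul_comm] at h8
      exact h8
    have h8 : π (star x) = π (star g) ^ a := by
      have h9 := hdvd0 _ h7
      rw [map_sub, map_pow, sub_eq_zero] at h9
      exact h9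
    rw [h1 x _ h6, map_pow, ← hi, map_mul, ha, h8, ← h3]
    ring
  -- (6)
  refine ⟨(i + k + (ℓ - 1) - 1) % (ℓ - 1) + 1, by omega, ?_, ?_⟩
  · have := Nat.mod_lt (i + k + (ℓ - 1) - 1) (show 0 < ℓ - 1 by omega)
    omega
  · intro x hx
    have h6 := (hNRL t ℓ hℓ hprime π hπ x hx).1
    rw [h5 x hx, ← pow_add]
    have h7 : i + k + (ℓ - 1) = (ℓ - 1) * ((i + k + (ℓ - 1) - 1) / (ℓ - 1)) +
        ((i + k + (ℓ - 1) - 1) % (ℓ - 1) + 1) := by
      have h8 := Nat.div_add_mod (i + k + (ℓ - 1) - 1) (ℓ - 1)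
      omega
    calc π (x * star x) ^ (i + k) = π (x * star x) ^ (i + k + (ℓ - 1)) := by
          rw [pow_add _ (i + k) (ℓ - 1), h6, mul_one]
      _ = π (x * star x) ^ ((ℓ - 1) * ((i + k + (ℓ - 1) - 1) / (ℓ - 1)) +
        ((i + k + (ℓ - 1) - 1) % (ℓ - 1) + 1)) := by rw [← h7]
      _ = π (x * star x) ^ ((i + k + (ℓ - 1) - 1) % (ℓ - 1) + 1) := by
          rw [pow_add, pow_mul, h6, one_pow, one_mul]

end Pool.Agent.OD
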