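import Pool.Agent.helper21.OD.SpecA

/-!
# od:DVI, division of a modular symbol

Helper file for MP_2e0e07_nt (project od).
-/

namespace Pool.Agent.OD

open MvPolynomial Matrix

theorem DVI : DVI_stmt := by
  intro t R _ _ f k N χ ϖ hϖ φ hφ hd
  have h1 : ∀ u v, ∃ P : Pol R, φ u v = C ϖ * P := fun u v => (C_dvd_iff_dvd_coeff _ _).2 (hd u v)
  choose φ' hφ' using h1
  have hC : (C ϖ : Pol R) ≠ 0 := by
    intro h
    exact hϖ (C_injective _ _ (by rw [h, map_zero]))
  have hcan : ∀ P Q : Pol R, C ϖ * P = C ϖ * Q → P = Q := fun P Q h => mul_left_cancel₀ hC h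
  have hw : ∀ (w : Fin 4 → ℕ) (P : Pol R), IsWeightedHomogeneous w (C ϖ * P) k →
      IsWeightedHomogeneous w P k := by
    intro w P h d hd
    apply h
    rw [coeff_C_mul]
    exact mul_ne_zero hϖ hd
  refine ⟨φ', ⟨?_, ?_, ?_, ?_, ?_, ?_, ?_⟩, ?_⟩
  · intro v
    apply hcan
    rw [← hφ', hφ.zero_left, mul_zero]
  · intro u
    apply hcan
    rw [← hφ', hφ.zero_right, mul_zero]
  · intro u v w hu hv hw'
    apply hcan
    rw [mul_add, ← hφ', ← hφ', ← hφ', hφ.add u v w hu hv hw']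
  · intro c u v hc
    apply hcan
    rw [← hφ', ← hφ', hφ.smul_left c u v hc]
  · intro c u v hc
    apply hcan
    rw [← hφ', ← hφ', hφ.smul_right c u v hc]
  · intro u v
    have h := hφ.hom u v
    rw [hφ'] at h
    exact ⟨hw _ _ h.1, hw _ _ h.2⟩
  · intro γ u v hγ
    apply hcan
    have h2 : act f γ.val (C ϖ) = C ϖ := (act f γ.val).commutes ϖ
    rw [← hφ', hφ.equiv γ u v hγ, hφ' u v, map_mul, h2, mul_smul_comm]
  · funext u v
    rw [hφ' u v, ← smul_eq_C_mul]
    rfl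

end Pool.Agent.OD
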